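import Pool.Agent.X117.Joi4
import Pool.Agent.X117.Der4

/-!
# Joint moments of consecutive derivatives with a negative exponent

Unconditionally, for every `m ≥ 0` and all real `a, b` with `-1 < a`, `0 ≤ b` and `0 < a + b ≤ 4`, the integral of
`|Z^(m)| ^ a |Z^(m+1)| ^ b` over `[T, 2 T]` is of the exact order `T (log T) ^ e`, where
`e = (a + b) ^ 2 / 4 + m a + (m + 1) b`; the upper bound also holds for `|ζ^(m)(1/2+it)| ^ a |ζ^(m+1)(1/2+it)| ^ b`.
For `m = 0`, `a ≤ -1` and `0 ≤ b` the integral of `|Z| ^ a |Z'| ^ b` over `[T, 2 T]` is infinite for large `T`.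
-/

open Filter Topology Complex MeasureTheory

namespace Pool.Agent.Results.MP_3d0d30_nt.JointMomentsFullRange

/-- the phase `exp (i ϑ(t))`, with `ϑ(t) = arg Γ(1/4 + i t / 2) - (t / 2) log π` -/
noncomputable def phase (t : ℝ) : ℂ :=
  Gamma (1 / 4 + I * t / 2) / ‖Gamma (1 / 4 + I * t / 2)‖ * cexp (-(I * (t / 2) * Real.log Real.pi))

/-- Hardy's function `Z(t) = exp (i ϑ(t)) ζ(1/2 + i t)`; the product is real, see `Z_eq` -/
noncomputable def Z (t : ℝ) : ℝ := (phase t * riemannZeta (1 / 2 + I * t)).re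

theorem Z_eq (t : ℝ) : ((Z t : ℝ) : ℂ) = phase t * riemannZeta (1 / 2 + I * t) :=
  Pool.Agent.X117.HZ.Z_eq t

/-- the integral of `|Z^(m)| ^ a |Z^(m+1)| ^ b` over `[T, 2 T]`, in `[0, ∞]` -/
noncomputable def jointZ (m : ℕ) (a b T : ℝ) : ENNReal :=
  ∫⁻ t in Set.Icc T (2 * T), ENNReal.ofReal (|iteratedDeriv m Z t| ^ a * |iteratedDeriv (m + 1) Z t| ^ b)

/-- the integral of `|ζ^(m)(1/2 + i t)| ^ a |ζ^(m+1)(1/2 + i t)| ^ b` over `[T, 2 T]`, in `[0, ∞]` -/
noncomputable def jointZeta (m : ℕ) (a b T : ℝ) : ENNReal :=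
  ∫⁻ t in Set.Icc T (2 * T), ENNReal.ofReal (‖iteratedDeriv m riemannZeta (1 / 2 + I * t)‖ ^ a *
    ‖iteratedDeriv (m + 1) riemannZeta (1 / 2 + I * t)‖ ^ b)

/-- the exponent -/
noncomputable def expo (m : ℕ) (a b : ℝ) : ℝ := (a + b) ^ 2 / 4 + m * a + (m + 1) * b

/-- the lower bound -/
theorem low (m : ℕ) {a b : ℝ} (h0 : 0 < a + b) (h4 : a + b ≤ 4) : ∃ c : ℝ, 0 < c ∧ ∀ᶠ T : ℝ in atTop,
    ENNReal.ofReal (c * (T * Real.log T ^ expo m a b)) ≤ jointZ m a b T := by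
  set e : ℕ → ℝ := fun j => if j = m then a else if j = m + 1 then b else 0 with he
  have hz : ∀ j ∈ Finset.range m, e j = 0 := by
    intro j hj
    rw [Finset.mem_range] at hj
    simp only [he]
    rw [if_neg (by omega), if_neg (by omega)]
  have hm : e m = a := by simp [he]
  have hm1 : e (m + 1) = b := by simp [he]
  have ht : Pool.Agent.X117.MS.tot (m + 1) e = a + b := by
    rw [Pool.Agent.X117.MS.tot, Finset.sum_range_succ, Finset.sum_range_succ, Finset.sum_eq_zero hz, hm, hm1, zero_add]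
  have hx : Pool.Agent.X117.MS.mex (m + 1) e = expo m a b := by
    rw [Pool.Agent.X117.MS.mex, ht, expo, Finset.sum_range_succ, Finset.sum_range_succ,
      Finset.sum_eq_zero (fun j hj => by rw [hz j hj, mul_zero]), hm, hm1]
    push_cast
    ring
  obtain ⟨c, hc, h⟩ := Pool.Agent.X117.MS.joint_low (m := m + 1) (b := e) (by rw [ht]; exact h0) (by rw [ht]; exact h4)
    (a := 1) (η := 1) one_pos one_pos
  refine ⟨c, hc, ?_⟩
  filter_upwards [h, Real.tendsto_log_atTop.eventually_ge_atTop 1] with T hT hL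
  have h1 := hT Set.univ MeasurableSet.univ (by
    intro x _ _
    have hL0 : 0 < Real.log T := by linarith
    rw [Set.univ_inter, measureReal_def, Real.volume_Icc, ENNReal.toReal_ofReal (by rw [add_sub_cancel_left]; positivity)]
    rw [add_sub_cancel_left, one_mul])
  rw [hx] at h1
  refine h1.trans (le_of_eq ?_)
  rw [Pool.Agent.X117.MS.jm, jointZ, Set.univ_inter]
  refine setLIntegral_congr_fun measurableSet_Icc fun t _ => ?_
  congr 1
  rw [Finset.prod_range_succ, Finset.prod_range_succ, Finset.prod_eq_one (fun j hj => by rw [hz j hj, Real.rpow_zero]),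
    hm, hm1, one_mul]
  rfl

/-- see the header -/
theorem result :
    (∀ (m : ℕ) (a b : ℝ), -1 < a → 0 ≤ b → 0 < a + b → a + b ≤ 4 →
      (∃ C : ℝ, 0 < C ∧ ∀ᶠ T : ℝ in atTop,
        jointZ m a b T ≤ ENNReal.ofReal (C * (T * Real.log T ^ expo m a b))) ∧
      (∃ C : ℝ, 0 < C ∧ ∀ᶠ T : ℝ in atTop,
        jointZeta m a b T ≤ ENNReal.ofReal (C * (T * Real.log T ^ expo m a b))) ∧
      (∃ c : ℝ, 0 < c ∧ ∀ᶠ T : ℝ in atTop,
        ENNReal.ofReal (c * (T * Real.log T ^ expo m a b)) ≤ jointZ m a b T)) ∧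
    (∀ a b : ℝ, a ≤ -1 → 0 ≤ b → ∀ᶠ T : ℝ in atTop, jointZ 0 a b T = ⊤) := by
  refine ⟨fun m a b ha hb h0 h4 => ⟨?_, ?_, ?_⟩, fun a b ha hb => ?_⟩
  · exact Pool.Agent.X117.JF.joint_up ha hb h0 h4 m
  · exact Pool.Agent.X117.JF.joint_up_zeta ha hb h0 h4 m
  · exact low m h0 h4
  · exact Pool.Agent.X117.JF.joint_inf ha hb

end Pool.Agent.Results.MP_3d0d30_nt.JointMomentsFullRange
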