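import Pool.Agent.TH158.FM.Rng
import Pool.Agent.TH692.FM2.Norm3
import Pool.Agent.TH809.MZ.Fin

set_option autoImplicit false

/-!
# MP_3d0d30_nt: a longer range of heights for large orders

`M_k(T) = ∫_0^T |ζ(1/2 + it)|^{2k} dt`. For every `ε > 0` there is `K` such that `M_k(T) < T (log T)^{k²}` for every real
`k ≥ K` and every `T` with `1000 ≤ T ≤ k^{(3 - ε) k}`.

Proof: the explicit bound `M_2(T) ≤ (4/5) T (log T)^4` and Weyl's bound `ζ(1/2 + it) ≪ (1 + |t|)^{1/6 + ε}`.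
-/

namespace Pool.Agent.Results.MP_3d0d30_nt.LargeOrders

open Complex Pool.Agent.TH158.FM Filter Topology

/-- `M_k(T) = ∫_0^T |ζ(1/2 + it)|^{2k} dt` -/
noncomputable def M (k T : ℝ) : ℝ := ∫ t in (0:ℝ)..T, ‖riemannZeta (1 / 2 + t * I)‖ ^ (2 * k)

lemma M_eq (k T : ℝ) : M k T = MM k T := by
  unfold M MM
  congr 1
  funext t
  rw [pt_half]

/-- `log x / x` is decreasing from `e` on -/
lemma quot {x y : ℝ} (hx : Real.exp 1 ≤ x) (hxy : x ≤ y) : x * Real.log y ≤ y * Real.log x := by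
  have h := Real.log_div_self_antitoneOn (a := x) (b := y) hx (hx.trans hxy) hxy
  have hx0 : 0 < x := (Real.exp_pos 1).trans_le hx
  have hy0 : 0 < y := hx0.trans_le hxy
  simp only at h
  rw [div_le_div_iff₀ hy0 hx0] at h
  linarith

theorem result : ∀ ε : ℝ, 0 < ε → ∃ K : ℝ, ∀ k T : ℝ, K ≤ k → 1000 ≤ T → T ≤ k ^ ((3 - ε) * k) →
    M k T < T * Real.log T ^ (k ^ 2) := by
  intro ε0 hε0
  -- we may assume that `ε ≤ 1`
  obtain ⟨ε, hε, hε1, hεε⟩ : ∃ ε : ℝ, 0 < ε ∧ ε ≤ 1 ∧ ε ≤ ε0 := ⟨min ε0 1, by positivity, min_le_right _ _, min_le_left _ _⟩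
  obtain ⟨C0, hC0⟩ := Pool.Agent.TH809.MZ.growth_weyl (ε / 36) (by positivity)
  obtain ⟨C, hC1, hC⟩ : ∃ C : ℝ, 1 ≤ C ∧ ∀ T : ℝ, 1000 ≤ T → ∀ t ∈ Set.Icc (0:ℝ) T,
      ‖riemannZeta (pt (1 / 2) t)‖ ≤ C * T ^ (1 / 6 + ε / 36) := by
    refine ⟨max (|C0| * 2) 1, le_max_right _ _, fun T hT t ht => ?_⟩
    have hT0 : 0 < T := by linarith
    have h1 := hC0 t
    have e1 : (⟨1 / 2, t⟩ : ℂ) = pt (1 / 2) t := by
      unfold pt
      apply Complex.ext <;> simp
    rw [e1] at h1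
    have ha : |t| = t := abs_of_nonneg ht.1
    rw [ha] at h1
    have h2 : (1 + t) ^ (1 / 6 + ε / 36) ≤ 2 * T ^ (1 / 6 + ε / 36) := by
      have h3 : (1 + t) ^ (1 / 6 + ε / 36) ≤ (2 * T) ^ (1 / 6 + ε / 36) :=
        Real.rpow_le_rpow (by linarith [ht.1]) (by linarith [ht.2]) (by positivity)
      have h4 : (2 * T) ^ (1 / 6 + ε / 36) = (2:ℝ) ^ (1 / 6 + ε / 36) * T ^ (1 / 6 + ε / 36) := Real.mul_rpow (by norm_num) hT0.le
      have h5 : (2:ℝ) ^ (1 / 6 + ε / 36) ≤ 2 ^ (1:ℝ) := Real.rpow_le_rpow_of_exponent_le (by norm_num) (by linarith)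
      rw [Real.rpow_one] at h5
      rw [h4] at h3
      exact h3.trans (mul_le_mul_of_nonneg_right h5 (Real.rpow_nonneg hT0.le _))
    have hp : 0 ≤ (1 + t) ^ (1 / 6 + ε / 36) := Real.rpow_nonneg (by linarith [ht.1]) _
    calc ‖riemannZeta (pt (1 / 2) t)‖ ≤ C0 * (1 + t) ^ (1 / 6 + ε / 36) := h1
      _ ≤ |C0| * (1 + t) ^ (1 / 6 + ε / 36) := mul_le_mul_of_nonneg_right (le_abs_self _) hp
      _ ≤ |C0| * (2 * T ^ (1 / 6 + ε / 36)) := mul_le_mul_of_nonneg_left h2 (abs_nonneg _)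
      _ = |C0| * 2 * T ^ (1 / 6 + ε / 36) := by ring
      _ ≤ max (|C0| * 2) 1 * T ^ (1 / 6 + ε / 36) := mul_le_mul_of_nonneg_right (le_max_left _ _) (Real.rpow_nonneg hT0.le _)
  have hlC : 0 ≤ Real.log C := Real.log_nonneg hC1
  refine ⟨max 3 (12 * Real.log C / ε + 3), fun k T hk hT hT2 => ?_⟩
  have hk3 : 3 ≤ k := (le_max_left _ _).trans hk
  have hkC : 12 * Real.log C / ε + 3 ≤ k := (le_max_right _ _).trans hk
  have hk0 : 0 < k := by linarith
  rw [M_eq]
  have hT0 : 0 < T := by linarith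
  have hl : (69:ℝ) / 10 ≤ Real.log T := log_ge hT
  have hl0 : 0 < Real.log T := by linarith
  have hl1 : 1 ≤ Real.log T := by linarith
  obtain ⟨L, hL⟩ : ∃ L : ℝ, L = Real.log T := ⟨_, rfl⟩
  have hLL : 1 ≤ Real.log L := by
    rw [hL, Real.le_log_iff_exp_le hl0]
    linarith [Real.exp_one_lt_d9]
  have hlk : 1 ≤ Real.log k := by
    rw [Real.le_log_iff_exp_le hk0]
    linarith [Real.exp_one_lt_d9]
  -- the size of `log T`
  have hLk : L ≤ (3 - ε) * (k * Real.log k) := by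
    have h1 := Real.log_le_log hT0 hT2
    rw [Real.log_rpow hk0] at h1
    rw [hL]
    have h2 : (3 - ε0) * k * Real.log k ≤ (3 - ε) * (k * Real.log k) := by
      rw [mul_assoc]
      exact mul_le_mul_of_nonneg_right (by linarith) (by positivity)
    linarith
  have hq : L ≤ (3 - ε) * k * Real.log L := by
    have h3 : 1 ≤ 3 - ε := by linarith
    have h4 : L ≤ (3 - ε) * (k * Real.log k) := hLk
    have hY : k ≤ (3 - ε) * (k * Real.log k) := by
      have : k * 1 ≤ k * Real.log k := mul_le_mul_of_nonneg_left hlk hk0.le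
      nlinarith
    have h5 : Real.exp 1 ≤ L := by rw [hL]; linarith [Real.exp_one_lt_d9]
    have h6 := quot h5 h4
    have h7 : Real.log k ≤ Real.log ((3 - ε) * (k * Real.log k)) := Real.log_le_log hk0 hY
    have hLp : 0 < L := by rw [hL]; exact hl0
    have h8 : L * Real.log k ≤ (3 - ε) * (k * Real.log k) * Real.log L :=
      (mul_le_mul_of_nonneg_left h7 hLp.le).trans h6
    have h9 : L * Real.log k ≤ (3 - ε) * k * Real.log L * Real.log k := by linarith
    exact le_of_mul_le_mul_right h9 (by linarith)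
  -- the pointwise bound
  have hW1 : 1 ≤ C * T ^ (1 / 6 + ε / 36) := by
    have := Real.one_le_rpow (by linarith : (1:ℝ) ≤ T) (by positivity : 0 ≤ 1 / 6 + ε / 36)
    nlinarith
  have h1 := moment_gen (k := k) hT (by linarith) (by linarith) (hC T hT) (fourth_all T hT)
  refine lt_of_le_of_lt h1 ?_
  have key : (C * T ^ (1 / 6 + ε / 36)) ^ (2 * k - 4) ≤ Real.log T ^ ((k - 2) * (k + 2)) := by
    rw [← Real.log_le_log_iff (by positivity) (by positivity), Real.log_rpow (by linarith), Real.log_rpow hl0,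
      Real.log_mul (by linarith) (by positivity), Real.log_rpow hT0, ← hL]
    have e1 : (2 * k - 4) * (Real.log C + (1 / 6 + ε / 36) * L) = (k - 2) * (2 * Real.log C + (1 / 3 + ε / 18) * L) := by ring
    rw [e1, mul_assoc]
    refine mul_le_mul_of_nonneg_left ?_ (by linarith)
    have h2 : (1 / 3 + ε / 18) * L ≤ (1 - ε / 6) * k * Real.log L := by
      have h3 : (1 / 3 + ε / 18) * L ≤ (1 / 3 + ε / 18) * ((3 - ε) * k * Real.log L) :=
        mul_le_mul_of_nonneg_left hq (by positivity)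
      have h4 : (1 / 3 + ε / 18) * (3 - ε) ≤ 1 - ε / 6 := by nlinarith
      have h5 : 0 ≤ k * Real.log L := by positivity
      nlinarith [mul_le_mul_of_nonneg_right h4 h5]
    have h3 : 2 * Real.log C ≤ ε / 6 * k * Real.log L := by
      have h4 : 12 * Real.log C / ε ≤ k := by linarith
      rw [div_le_iff₀ hε] at h4
      have h5 : ε / 6 * k * 1 ≤ ε / 6 * k * Real.log L := mul_le_mul_of_nonneg_left hLL (by positivity)
      linarith
    have h4 : 0 ≤ 2 * Real.log L := by linarith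
    nlinarith
  have e1 : Real.log T ^ (k ^ 2) = Real.log T ^ 4 * Real.log T ^ ((k - 2) * (k + 2)) := by
    have : Real.log T ^ 4 = Real.log T ^ (4 : ℝ) := by norm_cast
    rw [this, ← Real.rpow_add hl0]
    congr 1
    ring
  rw [e1]
  have hp : 0 < T * Real.log T ^ 4 := by positivity
  have hR : 0 < Real.log T ^ ((k - 2) * (k + 2)) := by positivity
  calc (C * T ^ (1 / 6 + ε / 36)) ^ (2 * k - 4) * (4 / 5 * (T * Real.log T ^ 4)) ≤
        Real.log T ^ ((k - 2) * (k + 2)) * (4 / 5 * (T * Real.log T ^ 4)) := mul_le_mul_of_nonneg_right key (by positivity)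
    _ < T * (Real.log T ^ 4 * Real.log T ^ ((k - 2) * (k + 2))) := by nlinarith [mul_pos hp hR]

end Pool.Agent.Results.MP_3d0d30_nt.LargeOrders
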