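import Pool.Agent.TH158.FM.Rng
import Pool.Agent.TH692.FM2.Norm3
import Pool.Agent.TH692.FM2.Range2

set_option autoImplicit false

/-!
# MP_3d0d30_nt: all heights, orders near the fourth moment

`M_k(T) = ∫_0^T |ζ(1/2 + it)|^{2k} dt`. For every `T ≥ 1000` (no upper limit) and every real `k ≥ 2` with
`(k - 2) log T ≤ 7/5`, the inequality `M_k(T) < T (log T)^{k²}` of Q2 holds; in particular Q2 holds for `k = 2`. For the
fourth moment: `M_2(T) ≤ (4/5) T (log T)^4` for `T ≥ 1000`, and `M_2(T) ≤ 0.4799 T (log T)^4` for `T ≥ 10^8`. For every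
real `k ≥ 2` and `T ≥ 10^8`, `M_k(T) ≤ 0.4799 T (log T)^4 (4 (T / 2π)^{1/4} + 1)^{2k - 4}`.
-/

namespace Pool.Agent.Results.MP_3d0d30_nt.NearOrderTwo

open Complex Pool.Agent.TH158.FM

/-- `M_k(T) = ∫_0^T |ζ(1/2 + it)|^{2k} dt` -/
noncomputable def M (k T : ℝ) : ℝ := ∫ t in (0:ℝ)..T, ‖riemannZeta (1 / 2 + t * I)‖ ^ (2 * k)

lemma M_eq (k T : ℝ) : M k T = MM k T := by
  unfold M MM
  congr 1
  funext t
  rw [pt_half]

lemma norm2 : S_NORM2 := Pool.Agent.TH692.FM2.norm2_all
    (Pool.Agent.TH615.J4553.hil_all Pool.Agent.TH158.FM.hil0_all)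
    (Pool.Agent.TH158.FM.lap_all Pool.Agent.TH360.J4554.div_all)

/-- the size of the pointwise bound -/
lemma VV_log {T : ℝ} (hT : 10 ^ 8 ≤ T) : 2 * Real.log (VV T) ≤ Real.log T / 2 + 2 := by
  have hT0 : 0 < T := by linarith
  have hx : (60:ℝ) ≤ (T / (2 * Real.pi)) ^ (1 / 4 : ℝ) := by
    have h2 : (60 : ℝ) ^ (4 : ℝ) ≤ T / (2 * Real.pi) := by
      have : (60 : ℝ) ^ (4 : ℝ) = 60 ^ 4 := by norm_cast
      rw [this, le_div_iff₀ (by positivity)]
      have := Real.pi_lt_d2
      nlinarith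
    calc (60:ℝ) = ((60 : ℝ) ^ (4 : ℝ)) ^ (1 / 4 : ℝ) := by
          rw [← Real.rpow_mul (by norm_num)]
          norm_num
      _ ≤ _ := by gcongr
  have h1 : VV T ≤ 41 / 10 * (T / (2 * Real.pi)) ^ (1 / 4 : ℝ) := by
    unfold VV
    linarith
  have h2 : Real.log (VV T) ≤ Real.log (41 / 10) + 1 / 4 * (Real.log T - Real.log (2 * Real.pi)) := by
    refine (Real.log_le_log (by linarith [VV_ge hT0.le]) h1).trans ?_
    rw [Real.log_mul (by norm_num) (by positivity), Real.log_rpow (by positivity), Real.log_div hT0.ne' (by positivity)]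
  have h3 : Real.log (41 / 10) ≤ 142 / 100 :=
    log_le_of_pow 100 142 (by norm_num) (by norm_num) (by norm_num) (by norm_num)
  have h4 : 18 / 10 ≤ Real.log (2 * Real.pi) := by
    refine le_trans ?_ (Real.log_le_log (by norm_num) (by linarith [Real.pi_gt_d2] : (628 / 100 : ℝ) ≤ 2 * Real.pi))
    exact le_log_of_pow 10 18 (by norm_num) (by norm_num) (by norm_num) (by norm_num)
  linarith

theorem result : (∀ k T : ℝ, 2 ≤ k → 1000 ≤ T → (k - 2) * Real.log T ≤ 7 / 5 → M k T < T * Real.log T ^ (k ^ 2)) ∧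
    (∀ T : ℝ, 1000 ≤ T → M 2 T ≤ 4 / 5 * (T * Real.log T ^ 4)) ∧
    (∀ T : ℝ, 10 ^ 8 ≤ T → M 2 T ≤ 4799 / 10000 * (T * Real.log T ^ 4)) ∧
    ∀ k T : ℝ, 2 ≤ k → 10 ^ 8 ≤ T →
      M k T ≤ 4799 / 10000 * (T * Real.log T ^ 4 * (4 * (T / (2 * Real.pi)) ^ (1 / 4 : ℝ) + 1) ^ (2 * k - 4)) := by
  have two : ∀ T : ℝ, M 2 T = ∫ t in (0:ℝ)..T, ‖riemannZeta (pt (1 / 2) t)‖ ^ 4 := by
    intro T
    rw [M_eq]
    unfold MM
    congr 1
    funext t
    norm_num
  refine ⟨?_, fun T hT => by rw [two]; exact fourth_all T hT, fun T hT => by rw [two]; exact fourth2_all norm2 T hT,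
    fun k T hk hT => by rw [M_eq]; exact all_gen norm2 k T hk hT⟩
  intro k T hk hT h
  rw [M_eq]
  have hT0 : 0 < T := by linarith
  rcases le_total T (5 * 10 ^ 12) with hT2 | hT2
  · exact all_small norm2 Pool.Agent.TH692.FM2.range2_all k T hk hT hT2
  · have hT8 : 10 ^ 8 ≤ T := by linarith
    have hl : (69:ℝ) / 10 ≤ Real.log T := log_ge hT
    have hl0 : 0 < Real.log T := by linarith
    have hl1 : 1 ≤ Real.log T := by linarith
    refine lt_of_le_of_lt (all_gen norm2 k T hk hT8) ?_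
    have hV : 1 ≤ VV T := VV_ge hT0.le
    have e1 : Real.log T ^ (k ^ 2) = Real.log T ^ 4 * Real.log T ^ ((k - 2) * (k + 2)) := by
      have : Real.log T ^ 4 = Real.log T ^ (4 : ℝ) := by norm_cast
      rw [this, ← Real.rpow_add hl0]
      congr 1
      ring
    rw [e1]
    have key : 4799 / 10000 * VV T ^ (2 * k - 4) < Real.log T ^ ((k - 2) * (k + 2)) := by
      have hc : Real.log (4799 / 10000) ≤ -(73 / 100) := by
        have := le_log_of_pow (x := 73 / 100) (y := (4799 / 10000)⁻¹) 100 73 (by norm_num) (by norm_num) (by norm_num) (by norm_num)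
        rw [Real.log_inv] at this
        linarith
      have hll : (193:ℝ) / 100 ≤ Real.log (Real.log T) :=
        loglog (by norm_num) hl (le_log_of_pow 100 193 (by norm_num) (by norm_num) (by norm_num) (by norm_num))
      have hVl := VV_log hT8
      rw [← Real.log_lt_log_iff (by positivity) (by positivity), Real.log_mul (by norm_num) (by positivity),
        Real.log_rpow (by linarith), Real.log_rpow hl0]
      have h1 : (2 * k - 4) * Real.log (VV T) ≤ (k - 2) * (Real.log T / 2 + 2) := by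
        have : (2 * k - 4) * Real.log (VV T) = (k - 2) * (2 * Real.log (VV T)) := by ring
        rw [this]
        exact mul_le_mul_of_nonneg_left hVl (by linarith)
      have h2 : (k - 2) * 4 * (193 / 100) ≤ (k - 2) * (k + 2) * Real.log (Real.log T) := by
        have h3 : (k - 2) * 4 ≤ (k - 2) * (k + 2) := mul_le_mul_of_nonneg_left (by linarith) (by linarith)
        exact mul_le_mul h3 hll (by norm_num) (mul_nonneg (by linarith) (by linarith))
      nlinarith
    have hp : 0 < T * Real.log T ^ 4 := by positivity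
    calc 4799 / 10000 * (T * Real.log T ^ 4 * VV T ^ (2 * k - 4)) = (T * Real.log T ^ 4) * (4799 / 10000 * VV T ^ (2 * k - 4)) := by ring
      _ < (T * Real.log T ^ 4) * Real.log T ^ ((k - 2) * (k + 2)) := mul_lt_mul_of_pos_left key hp
      _ = T * (Real.log T ^ 4 * Real.log T ^ ((k - 2) * (k + 2))) := by ring

end Pool.Agent.Results.MP_3d0d30_nt.NearOrderTwo
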