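import Pool.Agent.X111.LB.Fn

set_option autoImplicit false

/-!
MP_3d0d30_nt. The measure of the large values of `ζ` that carry its high moments, and the shape of `ζ` around them, next to
the critical line, for all orders. Let `s_j = 1/2 + D_j(T) + i(t + X_j(T))`, `j ≤ n`, with `d(T) ≤ D_j(T) ≤ 1/16`,
`|X_j(T)| ≤ 1`, `d(T) log T / log log T → ∞`, let `ℓ_ij(T) = -log |D_i + D_j + i(X_i - X_j)|`, `L(T) → ∞` and
`ℓ_ij / L → r_ij`. For a real vector `b` with `v = ∑ b_i b_j r_ij > 0` put `B(T) = ∑ b_i b_j ℓ_ij`. The set `S_c` of the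
`t ≤ T` with `∏ |ζ(s_j)|^(b_j) ≥ exp (B + c)` has measure of the exact order `T e^(-B) / √B`; the ratio of the measures for
`c'` and `c` tends to `e^(-2(c'-c))`; and, conditionally on `t ∈ S_c`, with Lebesgue measure, the vector of the
`(log |ζ(s_j)| - ∑_i b_i ℓ_ij) / √(L/2)` converges in law to the normal law with mean `0` and covariance
`r_ij - (rb)_i (rb)_j / v`.

For `n = 1`, `b = k` these are the values of size about `(2d)^(-k)`, which carry the moment of order `2k`. For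
`D_j = d^(u_j)`, `X_j = 0`, `L = log (1/d)`, `u_1 = 1`, `b = (k, 0, …, 0)`: given that `|ζ(1/2 + d + it)|` is at least
`(2d)^(-k)`, the path `u ↦ log |ζ(1/2 + d^u + it)|` is the line `k u L` plus `√(L/2)` times a Brownian bridge.
-/

open Filter Topology MeasureTheory ProbabilityTheory

namespace Pool.Agent.Results.MP_3d0d30_nt.ShapeOfLargeValues

/-- The absolute value `|ζ(1/2 + D_j(T) + i(t + X_j(T)))|`. -/
noncomputable def absZ {n : ℕ} (D X : Fin n → ℝ → ℝ) (T t : ℝ) (j : Fin n) : ℝ :=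
  ‖riemannZeta (1 / 2 + (D j T : ℂ) + Complex.I * ((t + X j T : ℝ) : ℂ))‖

/-- The numbers `ℓ_ij = -log √((D_i + D_j)² + (X_i - X_j)²)`. -/
noncomputable def ell {n : ℕ} (D X : Fin n → ℝ → ℝ) (i j : Fin n) (T : ℝ) : ℝ :=
  -(Real.log ((D i T + D j T) ^ 2 + (X i T - X j T) ^ 2) / 2)

/-- The number `B = ∑ b_i b_j ℓ_ij`. -/
noncomputable def B {n : ℕ} (D X : Fin n → ℝ → ℝ) (b : Fin n → ℝ) (T : ℝ) : ℝ := ∑ i, ∑ j, b i * b j * ell D X i j T

/-- The `t` in `(0, T]` with `∑ b_j log |ζ(s_j)| ≥ B + c`. -/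
def large {n : ℕ} (D X : Fin n → ℝ → ℝ) (b : Fin n → ℝ) (c T : ℝ) : Set ℝ :=
  {t | (0 < t ∧ t ≤ T) ∧ B D X b T + c ≤ ∑ j, b j * Real.log (absZ D X T t j)}

/-- The vector of the `(log |ζ(s_j)| - ∑_i b_i ℓ_ij) / √(L/2)`. -/
noncomputable def Y {n : ℕ} (D X : Fin n → ℝ → ℝ) (L : ℝ → ℝ) (b : Fin n → ℝ) (T t : ℝ) : Fin n → ℝ := fun j =>
  (Real.log (absZ D X T t j) - ∑ i, b i * ell D X i j T) / Real.sqrt (L T / 2)

/-- The covariance `r_ij - (rb)_i (rb)_j / ∑ b_k b_l r_kl`. -/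
noncomputable def cov {n : ℕ} (r : Fin n → Fin n → ℝ) (b : Fin n → ℝ) (i j : Fin n) : ℝ :=
  r i j - (∑ k, b k * r k i) * (∑ k, b k * r k j) / ∑ k, ∑ l, b k * b l * r k l

/-- `ρ` is the normal law on `ℝ^n` with mean `0` and covariance `C`: the linear forms `∑ c_j y_j` have the normal laws
with mean `0` and variance `∑ c_i c_j C_ij`. -/
def Normal {n : ℕ} (C : Fin n → Fin n → ℝ) (ρ : ProbabilityMeasure (Fin n → ℝ)) : Prop :=
  ∀ c : Fin n → ℝ, 0 ≤ ∑ i, ∑ j, c i * c j * C i j ∧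
    (ρ : Measure (Fin n → ℝ)).map (fun y => ∑ j, c j * y j) = gaussianReal 0 (∑ i, ∑ j, c i * c j * C i j).toNNReal

lemma absZ_eq {n : ℕ} (D X : Fin n → ℝ → ℝ) (d : ℝ → ℝ) (T t : ℝ) :
    Pool.Agent.X111.PA.zz (d T) (Pool.Agent.X111.PA.WW D X d T) t = absZ D X T t := by
  funext j
  unfold Pool.Agent.X111.PA.zz Pool.Agent.X111.PA.WW Pool.Agent.X111.PA.wv Pool.Agent.Y746.OA.sp absZ
  congr 2
  push_cast
  ring

theorem result (n : ℕ) (hn : 0 < n) (D X : Fin n → ℝ → ℝ) (d L : ℝ → ℝ) (r : Fin n → Fin n → ℝ)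
    (hpos : ∀ᶠ T : ℝ in atTop, ∀ j, d T ≤ D j T ∧ D j T ≤ 1 / 16 ∧ |X j T| ≤ 1)
    (hd : Tendsto (fun T => d T * Real.log T / Real.log (Real.log T)) atTop atTop)
    (hL : Tendsto L atTop atTop) (hr : ∀ i j, Tendsto (fun T => ell D X i j T / L T) atTop (𝓝 (r i j)))
    (b : Fin n → ℝ) (hb : 0 < ∑ i, ∑ j, b i * b j * r i j) (c : ℝ) :
    (∃ C : ℝ, 0 < C ∧ ∀ᶠ T : ℝ in atTop, 0 < B D X b T ∧
      C⁻¹ * (T * Real.exp (-B D X b T) / Real.sqrt (B D X b T)) ≤ (volume (large D X b c T)).toReal ∧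
      (volume (large D X b c T)).toReal ≤ C * (T * Real.exp (-B D X b T) / Real.sqrt (B D X b T))) ∧
    (∀ c' : ℝ, Tendsto (fun T : ℝ => (volume (large D X b c' T)).toReal / (volume (large D X b c T)).toReal) atTop
      (𝓝 (Real.exp (-(2 * (c' - c)))))) ∧
    ∃ ρ : ProbabilityMeasure (Fin n → ℝ), Normal (cov r b) ρ ∧ ∀ F : BoundedContinuousFunction (Fin n → ℝ) ℝ,
      Tendsto (fun T : ℝ => (∫ t in large D X b c T, F (Y D X L b T t)) / (volume (large D X b c T)).toReal) atTop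
        (𝓝 (∫ y, F y ∂(ρ : Measure (Fin n → ℝ)))) := by
  obtain ⟨V, hV0, hV1, hV2⟩ := Pool.Agent.X111.LB.exists_V hd
  have h : Pool.Agent.X111.PA.Hyp D X d V L r := ⟨hn, hpos, hd, hV0, hV1, hV2, hL, hr⟩
  have hB : ∀ T : ℝ, Pool.Agent.X111.LB.BF D X b b T = B D X b T := fun T => rfl
  have hlarge : ∀ c T : ℝ, Pool.Agent.X111.LB.FLv D X d b c T = large D X b c T := by
    intro c T
    ext t
    have e : Pool.Agent.X111.LB.Xb (d T) (Pool.Agent.X111.PA.WW D X d T) b t = ∑ j, b j * Real.log (absZ D X T t j) := by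
      unfold Pool.Agent.X111.LB.Xb
      rw [absZ_eq D X d T t]
    show (t ∈ Set.Ioc 0 T ∧ c ≤ Pool.Agent.X111.LB.Xb (d T) (Pool.Agent.X111.PA.WW D X d T) b t - Pool.Agent.X111.LB.BF D X b b T) ↔
      ((0 < t ∧ t ≤ T) ∧ B D X b T + c ≤ ∑ j, b j * Real.log (absZ D X T t j))
    rw [e, hB, le_sub_iff_add_le, add_comm c]
    rfl
  have hY : ∀ T t : ℝ, Pool.Agent.X111.PA.YY D X d L b T t = Y D X L b T t := by
    intro T t
    unfold Pool.Agent.X111.PA.YY Y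
    rw [absZ_eq D X d T t]
    rfl
  refine ⟨?_, fun c' => ?_, ?_⟩
  · obtain ⟨C, hC, h1⟩ := Pool.Agent.X111.LB.vol_order h b hb c
    simp only [hB, hlarge] at h1
    exact ⟨C, hC, h1⟩
  · have h1 := Pool.Agent.X111.LB.vol_ratio h b hb c c'
    simp only [hlarge] at h1
    exact h1
  · obtain ⟨ρ, hρ, hF⟩ := Pool.Agent.X111.LB.full_law h b hb c
    refine ⟨ρ, fun x => ?_, fun F => ?_⟩
    · obtain ⟨h1, h2⟩ := hρ x
      refine ⟨h1, ?_⟩
      have e : Pool.Agent.Y753.SHL.lf x (fun _ => (0:ℝ)) = 0 := by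
        unfold Pool.Agent.Y753.SHL.lf
        simp
      rw [e] at h2
      exact h2
    · have h1 := hF F
      simp only [hlarge, hY] at h1
      exact h1

end Pool.Agent.Results.MP_3d0d30_nt.ShapeOfLargeValues
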